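import Pool.Agent.H47.QG.Stmt

/-!
# Every Hamiltonian diffeomorphism of a torus has at least quadratic growth of periodic orbits

For every Hamiltonian diffeomorphism `φ` of `T^{2n}` (any `n ≥ 1`, `φ` the time-one map of a `C^2`
time-periodic Hamiltonian) the number `P(T)` of primitive periodic orbits of period at most `T`
satisfies `liminf log P(T) / log T ≥ 2`, and `P(T) ≥ A T^2 / log T` for some `A > 0` and all
large `T`. No nondegeneracy assumption.
-/

set_option autoImplicit false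

open Filter Topology Function
open Pool.Agent.H60.QG (PtE Torus IsHamiltonian IsTimeOne compose P)

namespace Pool.Agent.H70.FU.FullDraft

theorem growth_full {n : ℕ} (hn : 0 < n) {r : ℕ} (hr : 0 < r) (H : ℕ → ℝ → PtE n → ℝ)
    (f : ℕ → Torus n → Torus n)
    (hH : ∀ i < r, IsHamiltonian (H i)) (hf : ∀ i < r, IsTimeOne (H i) (f i)) :
    (2 : EReal) ≤ liminf (fun T : ℝ =>
      ENNReal.log (P (compose f r) T : ENNReal) / ((Real.log T : ℝ) : EReal)) atTop ∧
    ∃ A : ℝ, 0 < A ∧ ∀ᶠ T : ℝ in atTop,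
      ENNReal.ofReal (A * T ^ 2 / Real.log T) ≤ (P (compose f r) T : ENNReal) := by
  sorry

/-- **Quadratic growth.** Let `n ≥ 1` and let `φ` be the time-one map of the Hamiltonian `H` on the
torus `T^{2n}`. Then `liminf log P(T) / log T ≥ 2`, and `P(T) ≥ A T^2 / log T` for some `A > 0` and
all large `T`. -/
theorem result {n : ℕ} (hn : 0 < n) (H : ℝ → PtE n → ℝ) (φ : Torus n → Torus n)
    (hH : IsHamiltonian H) (hφ : IsTimeOne H φ) :
    (2 : EReal) ≤ liminf (fun T : ℝ =>
      ENNReal.log (P φ T : ENNReal) / ((Real.log T : ℝ) : EReal)) atTop ∧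
    ∃ A : ℝ, 0 < A ∧ ∀ᶠ T : ℝ in atTop,
      ENNReal.ofReal (A * T ^ 2 / Real.log T) ≤ (P φ T : ENNReal) :=
  growth_full hn one_pos (fun _ => H) (fun _ => φ) (fun _ _ => hH) (fun _ _ => hφ)

end Pool.Agent.H70.FU.FullDraft
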